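import Pool.Agent.H97.Phy.Sq

/-!
# MP_ea11fc: the Fibonacci system of squares

Labels: `la j b` (`j < n + 2`), `mu i b` (`i < n`) and `u b`; `b = true` is the shifted copy.
-/

set_option autoImplicit false

open Finset

namespace Pool.Agent.H97.Phy

variable {n : ℕ}

/-- the squares -/
abbrev QQ (n : ℕ) : Type := Fin n ⊕ Fin n ⊕ Fin n ⊕ Fin 3

/-- the third labels, without the copy -/
abbrev BB (n : ℕ) : Type := Fin (n + 2) ⊕ Fin n

/-- the third labels -/
abbrev KK (n : ℕ) : Type := (BB n × Bool) ⊕ Bool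

abbrev la (j : ℕ) (h : j < n + 2) (b : Bool) : KK n := Sum.inl (Sum.inl ⟨j, h⟩, b)
abbrev mu (i : Fin n) (b : Bool) : KK n := Sum.inl (Sum.inr i, b)
abbrev uu (b : Bool) : KK n := Sum.inr b

/-- the labels of the squares -/
def ccf (n : ℕ) : QQ n → Bool → Bool → KK n
  | Sum.inl i, false, false => la (i + 1) (by omega) false
  | Sum.inl i, true, true => la (i + 2) (by omega) false
  | Sum.inl i, false, true => la i (by omega) false
  | Sum.inl i, true, false => mu i false
  | Sum.inr (Sum.inl i), false, false => la i (by omega) true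
  | Sum.inr (Sum.inl i), true, true => mu i true
  | Sum.inr (Sum.inl i), false, true => la (i + 1) (by omega) true
  | Sum.inr (Sum.inl i), true, false => la (i + 2) (by omega) true
  | Sum.inr (Sum.inr (Sum.inl i)), false, false => mu i false
  | Sum.inr (Sum.inr (Sum.inl _)), true, true => uu true
  | Sum.inr (Sum.inr (Sum.inl i)), false, true => mu i true
  | Sum.inr (Sum.inr (Sum.inl _)), true, false => uu false
  | Sum.inr (Sum.inr (Sum.inr 0)), false, false => la 0 (by omega) false
  | Sum.inr (Sum.inr (Sum.inr 0)), true, true => uu true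
  | Sum.inr (Sum.inr (Sum.inr 0)), false, true => la 0 (by omega) true
  | Sum.inr (Sum.inr (Sum.inr 0)), true, false => uu false
  | Sum.inr (Sum.inr (Sum.inr 1)), false, false => la n (by omega) true
  | Sum.inr (Sum.inr (Sum.inr 1)), true, true => uu false
  | Sum.inr (Sum.inr (Sum.inr 1)), false, true => la n (by omega) false
  | Sum.inr (Sum.inr (Sum.inr 1)), true, false => uu true
  | Sum.inr (Sum.inr (Sum.inr 2)), false, false => la (n + 1) (by omega) true
  | Sum.inr (Sum.inr (Sum.inr 2)), true, true => uu false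
  | Sum.inr (Sum.inr (Sum.inr 2)), false, true => la (n + 1) (by omega) false
  | Sum.inr (Sum.inr (Sum.inr 2)), true, false => uu true

/-- the weights -/
def wt (n : ℕ) : QQ n → ℕ
  | Sum.inl i => Nat.fib (i + 1)
  | Sum.inr (Sum.inl i) => Nat.fib (i + 1)
  | Sum.inr (Sum.inr (Sum.inl i)) => Nat.fib (i + 1)
  | Sum.inr (Sum.inr (Sum.inr 0)) => 1
  | Sum.inr (Sum.inr (Sum.inr 1)) => Nat.fib (n + 1)
  | Sum.inr (Sum.inr (Sum.inr 2)) => Nat.fib n

/-- extension by zero -/
def ex (g : Fin n → ℤ) (i : ℕ) : ℤ := if h : i < n then g ⟨i, h⟩ else 0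

theorem ex_lt (g : Fin n → ℤ) {i : ℕ} (h : i < n) : ex g i = g ⟨i, h⟩ := dif_pos h

theorem ex_ge (g : Fin n → ℤ) {i : ℕ} (h : n ≤ i) : ex g i = 0 := dif_neg (not_lt.2 h)

theorem sum_ex (g : Fin n → ℤ) (k j : ℕ) :
    ∑ i : Fin n, g i * (if (i : ℕ) + k = j then 1 else 0) = if k ≤ j then ex g (j - k) else 0 := by
  by_cases hk : k ≤ j
  · rw [if_pos hk]
    by_cases hj : j - k < n
    · rw [ex_lt _ hj, Finset.sum_eq_single ⟨j - k, hj⟩]
      · rw [if_pos (by simp; omega), mul_one]
      · intro i _ hi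
        rw [if_neg, mul_zero]
        intro h
        apply hi
        ext
        simp
        omega
      · simp
    · rw [ex_ge _ (not_lt.1 hj)]
      refine Finset.sum_eq_zero fun i _ => ?_
      rw [if_neg, mul_zero]
      omega
  · rw [if_neg hk]
    refine Finset.sum_eq_zero fun i _ => ?_
    rw [if_neg, mul_zero]
    omega

theorem sum_ex0 (g : Fin n → ℤ) (j : ℕ) :
    ∑ i : Fin n, g i * (if (i : ℕ) = j then 1 else 0) = ex g j := by
  have := sum_ex g 0 j
  simpa using this

/-- the left side of the equation of the label `κ` -/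
def tot (z : QQ n → ℤ) (κ : KK n) : ℤ := ∑ q, z q * inc (ccf n) κ q

variable (z : QQ n → ℤ)

/-- the four families of unknowns -/
abbrev zS (z : QQ n → ℤ) : Fin n → ℤ := fun i => z (Sum.inl i)
abbrev zP (z : QQ n → ℤ) : Fin n → ℤ := fun i => z (Sum.inr (Sum.inl i))
abbrev zT (z : QQ n → ℤ) : Fin n → ℤ := fun i => z (Sum.inr (Sum.inr (Sum.inl i)))
abbrev zE (z : QQ n → ℤ) (e : Fin 3) : ℤ := z (Sum.inr (Sum.inr (Sum.inr e)))

theorem tot_la0 (j : ℕ) (h : j < n + 2) : tot z (la j h false) =
    (if 1 ≤ j then ex (zS z) (j - 1) else 0) + (if 2 ≤ j then ex (zS z) (j - 2) else 0) -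
      ex (zS z) j + (if j = 0 then zE z 0 else 0) - (if j = n then zE z 1 else 0) -
      (if j = n + 1 then zE z 2 else 0) := by
  rw [← sum_ex (zS z) 1 j, ← sum_ex (zS z) 2 j, ← sum_ex0 (zS z) j]
  unfold tot
  rw [Fintype.sum_sum_type, Fintype.sum_sum_type, Fintype.sum_sum_type, Fin.sum_univ_three]
  simp only [inc, ccf, Sum.inl.injEq, Prod.mk.injEq, Fin.mk.injEq, and_true, reduceCtorEq, and_false,
    if_false, sub_zero, add_zero, zero_sub, sub_self, mul_zero, Finset.sum_const_zero, false_and,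
    zero_add, Bool.true_eq_false]
  simp only [mul_sub, mul_add, Finset.sum_sub_distrib, Finset.sum_add_distrib]
  simp only [eq_comm (a := j)]
  split_ifs <;> simp [zS, zP, zE] <;> try ring

theorem tot_la1 (j : ℕ) (h : j < n + 2) : tot z (la j h true) =
    ex (zP z) j - (if 1 ≤ j then ex (zP z) (j - 1) else 0) -
      (if 2 ≤ j then ex (zP z) (j - 2) else 0) - (if j = 0 then zE z 0 else 0) +
      (if j = n then zE z 1 else 0) + (if j = n + 1 then zE z 2 else 0) := by
  rw [← sum_ex (zP z) 1 j, ← sum_ex (zP z) 2 j, ← sum_ex0 (zP z) j]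
  unfold tot
  rw [Fintype.sum_sum_type, Fintype.sum_sum_type, Fintype.sum_sum_type, Fin.sum_univ_three]
  simp only [inc, ccf, Sum.inl.injEq, Prod.mk.injEq, Fin.mk.injEq, and_true, reduceCtorEq, and_false,
    if_false, sub_zero, add_zero, zero_sub, sub_self, mul_zero, Finset.sum_const_zero, false_and,
    zero_add, Bool.false_eq_true]
  simp only [mul_sub, mul_add, Finset.sum_sub_distrib, Finset.sum_add_distrib]
  simp only [eq_comm (a := j)]
  split_ifs <;> simp [zS, zP, zE] <;> try ring

theorem tot_mu0 (i : Fin n) : tot z (mu i false) = zT z i - zS z i := by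
  unfold tot
  rw [Fintype.sum_sum_type, Fintype.sum_sum_type, Fintype.sum_sum_type, Fin.sum_univ_three]
  simp [inc, ccf]
  ring

theorem tot_mu1 (i : Fin n) : tot z (mu i true) = zP z i - zT z i := by
  unfold tot
  rw [Fintype.sum_sum_type, Fintype.sum_sum_type, Fintype.sum_sum_type, Fin.sum_univ_three]
  simp [inc, ccf]
  ring

theorem tot_u0 : tot z (uu false) = zE z 1 + zE z 2 - zE z 0 - ∑ i, zT z i := by
  unfold tot
  rw [Fintype.sum_sum_type, Fintype.sum_sum_type, Fintype.sum_sum_type, Fin.sum_univ_three]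
  simp [inc, ccf]
  ring

theorem tot_u1 : tot z (uu true) = zE z 0 + (∑ i, zT z i) - zE z 1 - zE z 2 := by
  unfold tot
  rw [Fintype.sum_sum_type, Fintype.sum_sum_type, Fintype.sum_sum_type, Fin.sum_univ_three]
  simp [inc, ccf]
  ring

end Pool.Agent.H97.Phy
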