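import Pool.Agent.H97.Phy.Lab

/-!
# MP_ea11fc: the exponential lower bound
-/

set_option autoImplicit false

open Finset

namespace Pool.Agent.H97.Phy

theorem exists_n (N : ℕ) (h : 1080 < N) :
    ∃ n, 2 ≤ n ∧ 24 * (n + 1) * (4 * n + 7) < N ∧ N ≤ 24 * (n + 2) * (4 * n + 11) := by
  classical
  have hex : ∃ n, N ≤ 24 * (n + 2) * (4 * n + 11) := ⟨N, by nlinarith⟩
  set n := Nat.find hex with hn
  have h1 : N ≤ 24 * (n + 2) * (4 * n + 11) := Nat.find_spec hex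
  have h2 : ∀ k, k < n → 24 * (k + 2) * (4 * k + 11) < N := fun k hk =>
    not_le.1 (Nat.find_min hex hk)
  have h3 : 2 ≤ n := by
    by_contra hc
    have : n = 0 ∨ n = 1 := by omega
    rcases this with h4 | h4 <;> rw [h4] at h1 <;> omega
  refine ⟨n, h3, ?_, h1⟩
  have h4 := h2 (n - 1) (by omega)
  have e1 : n - 1 + 2 = n + 1 := by omega
  have e2 : 4 * (n - 1) + 11 = 4 * n + 7 := by omega
  rwa [e1, e2] at h4

theorem fib_ge (n : ℕ) : (8 / 5 : ℝ) ^ n ≤ Nat.fib (n + 2) ∧ (8 / 5 : ℝ) ^ (n + 1) ≤ Nat.fib (n + 3) := by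
  induction n with
  | zero =>
    constructor
    · simp
    · have : Nat.fib 3 = 2 := rfl
      rw [zero_add, zero_add, this]
      norm_num
  | succ n ih =>
    refine ⟨ih.2, ?_⟩
    have h1 : Nat.fib (n + 1 + 3) = Nat.fib (n + 2) + Nat.fib (n + 3) := Nat.fib_add_two
    rw [h1]
    push_cast
    have h2 : (8 / 5 : ℝ) ^ (n + 1 + 1) ≤ (8 / 5 : ℝ) ^ n + (8 / 5 : ℝ) ^ (n + 1) := by
      rw [pow_succ, pow_succ]
      have : (0 : ℝ) ≤ (8 / 5 : ℝ) ^ n := by positivity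
      nlinarith
    linarith [ih.1, ih.2]

theorem exp_le : Real.exp (7 / 15) ≤ 8 / 5 := by
  have h := Real.exp_bound' (x := 7 / 15) (by norm_num) (by norm_num) (n := 4) (by norm_num)
  refine h.trans ?_
  simp only [Finset.sum_range_succ, Finset.sum_range_zero]
  norm_num [Nat.factorial]

theorem exp_bd {n N : ℕ} (hn : 2 ≤ n) (hN : N ≤ 24 * (n + 2) * (4 * n + 11)) :
    Real.exp (Real.sqrt N / 21) ≤ ((8 * Nat.fib (n + 2) - 4 : ℕ) : ℝ) := by
  have h1 : Real.sqrt N ≤ 49 / 5 * ((n : ℝ) + 3) := by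
    rw [Real.sqrt_le_left (by positivity)]
    have h2 : (N : ℝ) ≤ 24 * ((n : ℝ) + 2) * (4 * n + 11) := by exact_mod_cast hN
    nlinarith [sq_nonneg ((n : ℝ) + 3), (Nat.cast_nonneg n : (0 : ℝ) ≤ n)]
  have h2 : Real.exp (Real.sqrt N / 21) ≤ (8 / 5 : ℝ) ^ (n + 3) := by
    calc Real.exp (Real.sqrt N / 21) ≤ Real.exp (((n + 3 : ℕ) : ℝ) * (7 / 15)) := by
          apply Real.exp_le_exp.2
          push_cast
          linarith
      _ = Real.exp (7 / 15) ^ (n + 3) := Real.exp_nat_mul _ _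
      _ ≤ (8 / 5 : ℝ) ^ (n + 3) := pow_le_pow_left₀ (Real.exp_pos _).le exp_le _
  refine h2.trans ?_
  have h3 := (fib_ge n).1
  have h4 : 0 < Nat.fib (n + 2) := Nat.fib_pos.2 (by omega)
  rw [Nat.cast_sub (by omega)]
  push_cast
  have h5 : (8 / 5 : ℝ) ^ 1 ≤ (8 / 5 : ℝ) ^ n := pow_le_pow_right₀ (by norm_num) (by omega)
  rw [pow_add]
  norm_num at h5 ⊢
  linarith

theorem fib_big (n : ℕ) (hn : 19 ≤ n) : 24 * (n + 2) * (4 * n + 11) + 4 < 8 * Nat.fib (n + 2) := by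
  induction n, hn using Nat.le_induction with
  | base =>
    have : Nat.fib (19 + 2) = 10946 := by
      rw [show 19 + 2 = 21 by norm_num]
      decide +kernel
    rw [this]
    norm_num
  | succ n hn ih =>
    have h1 : Nat.fib (n + 1 + 2) = Nat.fib (n + 1) + Nat.fib (n + 2) := Nat.fib_add_two
    have h2 : Nat.fib (n + 2) = Nat.fib n + Nat.fib (n + 1) := Nat.fib_add_two
    have h3 : Nat.fib n ≤ Nat.fib (n + 1) := Nat.fib_le_fib_succ
    rw [h1]
    nlinarith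

open Pool.Agent.H81.Phylo in
theorem exp_degree (G : Type) [AddCommGroup G] [Fintype G] (hG : 1100 ≤ Fintype.card G)
    (S : Set (MvPolynomial (Flow G) ℂ)) (hS : Ideal.span S = toricIdeal G) :
    ∃ p ∈ S, Real.exp (Real.sqrt (Fintype.card G) / 21) ≤ p.totalDegree ∧
      (40000 ≤ Fintype.card G → Fintype.card G < p.totalDegree) := by
  obtain ⟨n, hn, h1, h2⟩ := exists_n (Fintype.card G) (by omega)
  obtain ⟨p, hp, hd⟩ := degree_bound n hn h1 hS
  refine ⟨p, hp, (exp_bd hn h2).trans (by exact_mod_cast hd), fun h => ?_⟩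
  have h3 : 19 ≤ n := by
    by_contra hc
    have h4 : n ≤ 18 := by omega
    have h5 : 24 * (n + 2) * (4 * n + 11) ≤ 24 * (18 + 2) * (4 * 18 + 11) :=
      Nat.mul_le_mul (Nat.mul_le_mul_left _ (by omega)) (by omega)
    omega
  have h4 := fib_big n h3
  omega

end Pool.Agent.H97.Phy
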