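import Pool.Agent.H97.Phy.Sq

/-!
# MP_ea11fc: generic shifts of the squares exist when the group is large
-/

set_option autoImplicit false

open Finset

namespace Pool.Agent.H97.Phy

/-- a function with a symmetric pairwise property, when every pair excludes few values -/
theorem exists_pairwise {Q G ι : Type*} [Fintype Q] [Fintype G] [Fintype ι] [Nonempty G]
    (Good : Q → Q → G → G → Prop)
    (v : Q → Q → G → ι → G) (hv : ∀ q q' x y, (∀ i, x ≠ v q q' y i) → Good q q' x y)
    (hsymm : ∀ q q' x y, Good q q' x y → Good q' q y x)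
    (hcard : Fintype.card Q * Fintype.card ι < Fintype.card G) :
    ∃ s : Q → G, ∀ q q', q ≠ q' → Good q q' (s q) (s q') := by
  classical
  suffices h : ∀ T : Finset Q, ∃ s : Q → G, ∀ q ∈ T, ∀ q' ∈ T, q ≠ q' → Good q q' (s q) (s q') by
    obtain ⟨s, hs⟩ := h univ
    exact ⟨s, fun q q' => hs q (mem_univ _) q' (mem_univ _)⟩
  intro T
  induction T using Finset.induction_on with
  | empty => exact ⟨fun _ => Classical.arbitrary G, by simp⟩
  | insert q T hq ih =>
    obtain ⟨s, hs⟩ := ih
    obtain ⟨g, hg⟩ := avoid (ι := Q × ι) (G := G) (by rwa [Fintype.card_prod])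
      (fun p => v q p.1 (s p.1) p.2)
    have hgood : ∀ q' ∈ T, Good q q' g (s q') := fun q' _ => hv _ _ _ _ fun i => hg (q', i)
    have hne : ∀ q' ∈ T, q' ≠ q := fun q' h h' => hq (h' ▸ h)
    refine ⟨Function.update s q g, ?_⟩
    intro q₁ h₁ q₂ h₂ hne12
    rcases Finset.mem_insert.1 h₁ with e₁ | k₁ <;> rcases Finset.mem_insert.1 h₂ with e₂ | k₂
    · exact absurd (e₁.trans e₂.symm) hne12
    · rw [e₁, Function.update_self, Function.update_of_ne (hne q₂ k₂)]
      exact hgood q₂ k₂
    · rw [e₂, Function.update_self, Function.update_of_ne (hne q₁ k₁)]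
      exact hsymm _ _ _ _ (hgood q₁ k₁)
    · rw [Function.update_of_ne (hne q₁ k₁), Function.update_of_ne (hne q₂ k₂)]
      exact hs q₁ k₁ q₂ k₂ hne12

variable {G : Type} [AddCommGroup G] {Q K : Type} [Fintype Q] [Fintype K]

/-- the first labels of the square `q` with the shift `x` -/
def fa (cc : Q → Bool → Bool → K) (l : K → G) (q : Q) (x : G) : Bool → G
  | false => x
  | true => x + l (cc q false true) - l (cc q true true)

/-- the second labels -/
def fb (cc : Q → Bool → Bool → K) (l : K → G) (q : Q) (x : G) : Bool → G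
  | false => -x - l (cc q false false)
  | true => -x - l (cc q false true)

theorem exists_place [Fintype G] (cc : Q → Bool → Bool → K) (l : K → G) (hl : Function.Injective l)
    (hrel : ∀ q, l (cc q false false) + l (cc q true true) = l (cc q false true) + l (cc q true false))
    (hne1 : ∀ q, cc q false false ≠ cc q false true) (hne2 : ∀ q, cc q true true ≠ cc q false true)
    (hcard : Fintype.card Q * (8 * Fintype.card K + 8) < Fintype.card G) :
    ∃ a b : Q → Bool → G, Place cc l a b := by
  classical
  set Good : Q → Q → G → G → Prop := fun q q' x y =>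
    (∀ i j κ, fa cc l q x i + fb cc l q' y j + l κ ≠ 0) ∧
      (∀ i j κ, fa cc l q' y i + fb cc l q x j + l κ ≠ 0) ∧
      (∀ i j, fa cc l q x i ≠ fa cc l q' y j) ∧ ∀ i j, fb cc l q x i ≠ fb cc l q' y j with hGood
  have hex : ∃ s : Q → G, ∀ q q', q ≠ q' → Good q q' (s q) (s q') := by
    refine exists_pairwise (Q := Q) (G := G)
      (ι := ((Bool × Bool) × K) ⊕ ((Bool × Bool) × K) ⊕ (Bool × Bool) ⊕ (Bool × Bool)) Good
      (fun q q' y i => match i with
        | Sum.inl ((i, j), κ) => -(fa cc l q 0 i + fb cc l q' y j + l κ)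
        | Sum.inr (Sum.inl ((i, j), κ)) => fa cc l q' y i + fb cc l q 0 j + l κ
        | Sum.inr (Sum.inr (Sum.inl (i, j))) => fa cc l q' y j - fa cc l q 0 i
        | Sum.inr (Sum.inr (Sum.inr (i, j))) => fb cc l q 0 i - fb cc l q' y j)
      ?_ ?_ ?_
    · intro q q' x y h
      have hax : ∀ i, fa cc l q x i = x + fa cc l q 0 i := by
        intro i
        cases i <;> simp only [fa] <;> abel
      have hbx : ∀ i, fb cc l q x i = -x + fb cc l q 0 i := by
        intro i
        cases i <;> simp only [fb] <;> abel
      refine ⟨?_, ?_, ?_, ?_⟩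
      · intro i j κ h1
        refine h (Sum.inl ((i, j), κ)) ?_
        show x = -(fa cc l q 0 i + fb cc l q' y j + l κ)
        rw [hax] at h1
        generalize fa cc l q 0 i = t at h1
        rw [eq_neg_iff_add_eq_zero, ← h1]
        abel
      · intro i j κ h1
        refine h (Sum.inr (Sum.inl ((i, j), κ))) ?_
        rw [hbx] at h1
        show x = fa cc l q' y i + fb cc l q 0 j + l κ
        generalize fb cc l q 0 j = t at h1 ⊢
        rw [← sub_eq_zero, ← neg_eq_zero, ← h1]
        abel
      · intro i j h1
        refine h (Sum.inr (Sum.inr (Sum.inl (i, j)))) ?_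
        show x = fa cc l q' y j - fa cc l q 0 i
        rw [← h1, hax]
        abel
      · intro i j h1
        refine h (Sum.inr (Sum.inr (Sum.inr (i, j)))) ?_
        show x = fb cc l q 0 i - fb cc l q' y j
        rw [← h1, hbx]
        abel
    · rintro q q' x y ⟨h1, h2, h3, h4⟩
      exact ⟨h2, h1, fun i j h => h3 j i h.symm, fun i j h => h4 j i h.symm⟩
    · refine lt_of_le_of_lt (Nat.mul_le_mul_left _ (le_of_eq ?_)) hcard
      simp only [Fintype.card_sum, Fintype.card_prod, Fintype.card_bool]
      ring
  obtain ⟨s, hs⟩ := hex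
  refine ⟨fun q => fa cc l q (s q), fun q => fb cc l q (s q), ?_⟩
  have hfa : ∀ q i i', fa cc l q (s q) i = fa cc l q (s q) i' → i = i' := by
    intro q i i' h
    cases i <;> cases i' <;> simp only [fa] at h ⊢
    · exfalso
      have h1 : l (cc q true true) = l (cc q false true) := by
        have h2 : s q + (l (cc q false true) - l (cc q true true)) = s q + 0 := by
          rw [add_zero]
          rw [← add_sub_assoc]
          exact h.symm
        exact (sub_eq_zero.1 (add_left_cancel h2)).symm
      exact hne2 q (hl h1)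
    · exfalso
      have h1 : l (cc q true true) = l (cc q false true) := by
        have h2 : s q + (l (cc q false true) - l (cc q true true)) = s q + 0 := by
          rw [add_zero]
          rw [← add_sub_assoc]
          exact h
        exact (sub_eq_zero.1 (add_left_cancel h2)).symm
      exact hne2 q (hl h1)
  have hfb : ∀ q i i', fb cc l q (s q) i = fb cc l q (s q) i' → i = i' := by
    intro q i i' h
    cases i <;> cases i' <;> simp only [fb] at h ⊢
    · exact absurd (hl (sub_right_injective h)) (hne1 q)
    · exact absurd (hl (sub_right_injective h)).symm (hne1 q)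
  refine ⟨hl, ?_, ?_, ?_, ?_⟩
  · intro q i j
    have h := hrel q
    cases i <;> cases j <;> simp only [fa, fb]
    · abel
    · abel
    · rw [eq_sub_of_add_eq h]
      abel
    · abel
  · intro q q' i i' h
    by_cases hq : q = q'
    · subst hq
      exact ⟨rfl, hfa q i i' h⟩
    · exact absurd h ((hs q q' hq).2.2.1 i i')
  · intro q q' i i' h
    by_cases hq : q = q'
    · subst hq
      exact ⟨rfl, hfb q i i' h⟩
    · exact absurd h ((hs q q' hq).2.2.2 i i')
  · intro q q' i j κ h
    by_contra hq
    exact (hs q q' hq).1 i j κ h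

end Pool.Agent.H97.Phy
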