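import Pool.Agent.H97.Phy.Rig
import Pool.Agent.H97.Phy.Shift

/-!
# MP_ea11fc: generic third labels for the Fibonacci system exist when the group is large
-/

set_option autoImplicit false

open Finset

namespace Pool.Agent.H97.Phy

variable {G : Type} [AddCommGroup G]

/-- the differences that have to be avoided -/
def dd (Δ : G) : Fin 3 → G := ![0, Δ, -Δ]

def Far (Δ x y : G) : Prop := ∀ e, x ≠ y + dd Δ e

theorem Far.symm {Δ x y : G} (h : Far Δ x y) : Far Δ y x := by
  intro e he
  fin_cases e
  · exact h 0 (by rw [he]; simp [dd])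
  · exact h 2 (by rw [he]; simp [dd])
  · exact h 1 (by rw [he]; simp [dd])

theorem Far.ne {Δ x y : G} (h : Far Δ x y) : x ≠ y := by
  have := h 0
  simpa [dd] using this

theorem Far.ne1 {Δ x y : G} (h : Far Δ x y) : x ≠ y + Δ := by
  have := h 1
  simpa [dd] using this

/-- the fourth label -/
def muf (f : ℕ → G) (i : ℕ) : G := f (i + 1) + f (i + 2) - f i

structure Gen (Δ : G) (m : ℕ) (f : ℕ → G) : Prop where
  one : ∀ i j, i < j → j < m → Far Δ (f j) (f i)
  two : ∀ i j, i + 2 < m → j < m → Far Δ (muf f i) (f j)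
  three : ∀ i i', i < i' → i' + 2 < m → Far Δ (muf f i') (muf f i)

theorem exists_gen [Fintype G] (Δ : G) (m : ℕ) (hm : 12 * m < Fintype.card G + 12) :
    ∃ f : ℕ → G, Gen Δ m f := by
  classical
  induction m with
  | zero => exact ⟨fun _ => 0, ⟨fun _ _ _ h => absurd h (by omega), fun _ _ h => absurd h (by omega),
      fun _ _ _ h => absurd h (by omega)⟩⟩
  | succ m ih =>
    obtain ⟨f, hf⟩ := ih (by omega)
    set v : Fin 4 × Fin m × Fin 3 → G := fun p => match p with
      | (0, i, e) => f i + dd Δ e
      | (1, i, e) => muf f i + dd Δ e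
      | (2, i, e) => f i + dd Δ e - f (m - 1) + f (m - 2)
      | (3, i, e) => muf f i + dd Δ e - f (m - 1) + f (m - 2) with hv
    obtain ⟨g, hg⟩ := avoid (ι := Fin 4 × Fin m × Fin 3) (G := G)
      (by simp only [Fintype.card_prod, Fintype.card_fin]; omega) v
    have gA : ∀ i, i < m → Far Δ g (f i) := fun i hi e => hg (0, ⟨i, hi⟩, e)
    have gB : ∀ i, i < m → Far Δ g (muf f i) := fun i hi e => hg (1, ⟨i, hi⟩, e)
    have gC : ∀ i, i < m → ∀ e, g ≠ f i + dd Δ e - f (m - 1) + f (m - 2) :=
      fun i hi e => hg (2, ⟨i, hi⟩, e)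
    have gD : ∀ i, i < m → ∀ e, g ≠ muf f i + dd Δ e - f (m - 1) + f (m - 2) :=
      fun i hi e => hg (3, ⟨i, hi⟩, e)
    have u1 : ∀ i, i < m → Function.update f m g i = f i := fun i hi =>
      Function.update_of_ne (by omega) _ _
    have u2 : Function.update f m g m = g := Function.update_self _ _ _
    have u3 : ∀ i, i + 2 < m → muf (Function.update f m g) i = muf f i := by
      intro i hi
      unfold muf
      rw [u1 _ (by omega), u1 _ (by omega), u1 _ (by omega)]
    have u4 : 2 ≤ m → muf (Function.update f m g) (m - 2) = f (m - 1) + g - f (m - 2) := by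
      intro h2
      unfold muf
      have e1 : m - 2 + 1 = m - 1 := by omega
      have e2 : m - 2 + 2 = m := by omega
      rw [e1, e2, u1 (m - 1) (by omega), u2, u1 (m - 2) (by omega)]
    refine ⟨Function.update f m g, ?_, ?_, ?_⟩
    · intro i j hij hj
      rcases Nat.lt_succ_iff_lt_or_eq.1 hj with h | rfl
      · rw [u1 _ h, u1 _ (by omega)]
        exact hf.one i j hij h
      · rw [u2, u1 _ hij]
        exact gA i hij
    · intro i j hi hj
      rcases (by omega : i + 2 < m ∨ i = m - 2 ∧ 2 ≤ m) with h | ⟨rfl, h2⟩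
      · rw [u3 i h]
        rcases Nat.lt_succ_iff_lt_or_eq.1 hj with h' | rfl
        · rw [u1 _ h']
          exact hf.two i j h h'
        · rw [u2]
          exact (gB i (by omega)).symm
      · rw [u4 h2]
        rcases Nat.lt_succ_iff_lt_or_eq.1 hj with h' | rfl
        · rw [u1 _ h']
          intro e he
          refine gC j h' e ?_
          rw [← he]
          abel
        · rw [u2]
          intro e he
          refine hf.one (j - 2) (j - 1) (by omega) (by omega) e ?_
          have h3 : f (j - 1) + g - f (j - 2) - g + f (j - 2) = f (j - 1) := by abel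
          rw [← h3, he]
          abel
    · intro i i' hii hi'
      rcases (by omega : i' + 2 < m ∨ i' = m - 2 ∧ 2 ≤ m) with h | ⟨rfl, h2⟩
      · rw [u3 i' h, u3 i (by omega)]
        exact hf.three i i' hii h
      · rw [u4 h2, u3 i (by omega)]
        intro e he
        refine gD i (by omega) e ?_
        rw [← he]
        abel

variable {n : ℕ}

/-- the labels of the first copy -/
def base (f : ℕ → G) : BB n → G
  | Sum.inl j => f j
  | Sum.inr i => muf f i

theorem base_far {Δ : G} {f : ℕ → G} (hf : Gen Δ (n + 2) f) {κ κ' : BB n} (h : κ ≠ κ') :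
    Far Δ (base f κ) (base f κ') := by
  rcases κ with j | i <;> rcases κ' with j' | i'
  · have hne : (j : ℕ) ≠ j' := fun h' => h (by rw [Fin.ext h'])
    rcases lt_or_gt_of_ne hne with h1 | h1
    · exact (hf.one _ _ h1 j'.2).symm
    · exact hf.one _ _ h1 j.2
  · exact (hf.two _ _ (by omega) j.2).symm
  · exact hf.two _ _ (by omega) j'.2
  · have hne : (i : ℕ) ≠ i' := fun h' => h (by rw [Fin.ext h'])
    rcases lt_or_gt_of_ne hne with h1 | h1
    · exact (hf.three _ _ h1 (by omega)).symm
    · exact hf.three _ _ h1 (by omega)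

/-- the labels -/
def lab (f : ℕ → G) (Δ u : G) : KK n → G
  | Sum.inl (κ, false) => base f κ
  | Sum.inl (κ, true) => base f κ + Δ
  | Sum.inr false => u
  | Sum.inr true => u + Δ

theorem lab_inj {Δ u : G} {f : ℕ → G} (hf : Gen Δ (n + 2) f) (hΔ : Δ ≠ 0)
    (hu : ∀ κ : BB n, Far Δ u (base f κ)) : Function.Injective (lab (n := n) f Δ u) := by
  intro x y h
  have hΔ' : ∀ a : G, a ≠ a + Δ := fun a h => hΔ (by simpa using h.symm)
  rcases x with ⟨κ, b⟩ | b <;> rcases y with ⟨κ', b'⟩ | b'
  · by_cases hκ : κ = κ'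
    · subst hκ
      cases b <;> cases b' <;> simp only [lab] at h ⊢
      · exact absurd h (hΔ' _)
      · exact absurd h.symm (hΔ' _)
    · exfalso
      have h1 := base_far hf hκ
      cases b <;> cases b' <;> simp only [lab] at h
      · exact h1.ne h
      · exact h1.ne1 h
      · exact h1.symm.ne1 h.symm
      · exact h1.ne (add_right_cancel h)
  · exfalso
    have h1 := hu κ
    cases b <;> cases b' <;> simp only [lab] at h
    · exact h1.symm.ne h
    · exact h1.symm.ne1 h
    · exact h1.ne1 h.symm
    · exact h1.ne (add_right_cancel h).symm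
  · exfalso
    have h1 := hu κ'
    cases b <;> cases b' <;> simp only [lab] at h
    · exact h1.ne h
    · exact h1.ne1 h
    · exact h1.symm.ne1 h.symm
    · exact h1.ne (add_right_cancel h)
  · cases b <;> cases b' <;> simp only [lab] at h ⊢
    · exact absurd h (hΔ' _)
    · exact absurd h.symm (hΔ' _)

theorem lab_rel (f : ℕ → G) (Δ u : G) (q : QQ n) :
    lab f Δ u (ccf n q false false) + lab f Δ u (ccf n q true true) =
      lab f Δ u (ccf n q false true) + lab f Δ u (ccf n q true false) := by
  rcases q with i | i | i | e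
  · simp only [ccf, lab, base, muf]
    abel
  · simp only [ccf, lab, base, muf]
    abel
  · simp only [ccf, lab, base]
    abel
  · fin_cases e <;> simp only [ccf, lab, base] <;> abel

theorem ccf_ne1 (q : QQ n) : ccf n q false false ≠ ccf n q false true := by
  rcases q with i | i | i | e
  · simp [ccf]
  · simp [ccf]
  · simp [ccf]
  · fin_cases e <;> simp [ccf]

theorem ccf_ne2 (q : QQ n) : ccf n q true true ≠ ccf n q false true := by
  rcases q with i | i | i | e
  · simp [ccf]
  · simp [ccf]
  · simp [ccf]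
  · fin_cases e <;> simp [ccf]

theorem exists_lab [Fintype G] (n : ℕ) (hcard : 24 * (n + 1) * (4 * n + 7) < Fintype.card G) :
    ∃ l : KK n → G, Function.Injective l ∧ ∀ q : QQ n,
      l (ccf n q false false) + l (ccf n q true true) =
        l (ccf n q false true) + l (ccf n q true false) := by
  classical
  have hb : 24 * (n + 1) * (4 * n + 7) = 96 * (n * n) + 264 * n + 168 := by ring
  rw [hb] at hcard
  haveI : Nontrivial G := Fintype.one_lt_card_iff_nontrivial.1 (by omega)
  obtain ⟨Δ, hΔ⟩ := exists_ne (0 : G)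
  obtain ⟨f, hf⟩ := exists_gen Δ (n + 2) (by omega)
  obtain ⟨u, hu⟩ := avoid (ι := BB n × Fin 3) (G := G) (by
    simp only [Fintype.card_prod, Fintype.card_sum, Fintype.card_fin]
    omega) fun p => base f p.1 + dd Δ p.2
  exact ⟨lab f Δ u, lab_inj hf hΔ fun κ e => hu (κ, e), lab_rel f Δ u⟩

/-- the main theorem -/
theorem degree_bound [Fintype G] (n : ℕ) (hn : 2 ≤ n)
    (hcard : 24 * (n + 1) * (4 * n + 7) < Fintype.card G)
    {S : Set (MvPolynomial (Pool.Agent.H81.Phylo.Flow G) ℂ)}
    (hS : Ideal.span S = Pool.Agent.H81.Phylo.toricIdeal G) :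
    ∃ p ∈ S, 8 * Nat.fib (n + 2) - 4 ≤ p.totalDegree := by
  classical
  obtain ⟨l, hl, hrel⟩ := exists_lab (G := G) n hcard
  obtain ⟨a, b, hp⟩ := exists_place (ccf n) l hl hrel ccf_ne1 ccf_ne2 (by
    refine lt_of_le_of_lt (le_of_eq ?_) hcard
    simp only [Fintype.card_prod, Fintype.card_sum, Fintype.card_fin, Fintype.card_bool]
    ring)
  rw [← sum_wt]
  exact indisp hp (wt n) (bal hn) (rig hn) ⟨Sum.inl ⟨0, by omega⟩, by simp [wt]⟩ hS

end Pool.Agent.H97.Phy
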