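import Pool.Agent.H97.Phy.Fibs

/-!
# MP_ea11fc: the Fibonacci system is balanced and rigid
-/

set_option autoImplicit false

open Finset

namespace Pool.Agent.H97.Phy

variable {n : ℕ}

theorem ex_fib (g : Fin n → ℤ) (hg : ∀ i : Fin n, g i = Nat.fib (i + 1)) {i : ℕ} (h : i < n) :
    ex g i = Nat.fib (i + 1) := by
  rw [ex_lt _ h, hg]

theorem fib_step (j : ℕ) (h : 2 ≤ j) :
    ((Nat.fib (j - 1 + 1) : ℕ) : ℤ) + (Nat.fib (j - 2 + 1) : ℕ) = (Nat.fib (j + 1) : ℕ) := by
  obtain ⟨k, rfl⟩ := Nat.exists_eq_add_of_le h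
  have e1 : 2 + k - 1 + 1 = k + 2 := by omega
  have e2 : 2 + k - 2 + 1 = k + 1 := by omega
  have e3 : 2 + k + 1 = k + 3 := by omega
  rw [e1, e2, e3]
  have := Nat.fib_add_two (n := k + 1)
  have e4 : k + 1 + 2 = k + 3 := by omega
  have e5 : k + 1 + 1 = k + 2 := by omega
  rw [e4, e5] at this
  rw [this]
  push_cast
  ring

/-- the chain equation of a sequence of Fibonacci numbers -/
theorem chain_fib (g : Fin n → ℤ) (hg : ∀ i : Fin n, g i = Nat.fib (i + 1)) (hn : 2 ≤ n) (j : ℕ)
    (h : j < n + 2) :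
    (if 1 ≤ j then ex g (j - 1) else 0) + (if 2 ≤ j then ex g (j - 2) else 0) - ex g j +
      (if j = 0 then 1 else 0) - (if j = n then ((Nat.fib (n + 1) : ℕ) : ℤ) else 0) -
      (if j = n + 1 then ((Nat.fib n : ℕ) : ℤ) else 0) = 0 := by
  rcases Nat.eq_zero_or_pos j with rfl | hj
  · rw [ex_fib g hg (by omega)]
    rw [if_neg (by omega), if_neg (by omega), if_pos rfl, if_neg (by omega), if_neg (by omega)]
    simp
  rcases eq_or_ne j 1 with rfl | h1
  · rw [if_pos le_rfl, if_neg (by omega), if_neg (by omega), if_neg (by omega), if_neg (by omega),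
      ex_fib g hg (by omega), ex_fib g hg (by omega)]
    simp
  have h2 : 2 ≤ j := by omega
  rw [if_pos (by omega), if_pos h2, if_neg (by omega)]
  have hs := fib_step j h2
  by_cases hjn : j < n
  · rw [ex_fib g hg (by omega), ex_fib g hg (by omega), ex_fib g hg hjn, if_neg (by omega),
      if_neg (by omega)]
    linarith
  rw [ex_ge g (not_lt.1 hjn)]
  by_cases hj1 : j = n
  · subst hj1
    rw [ex_fib g hg (by omega), ex_fib g hg (by omega), if_pos rfl, if_neg (by omega)]
    linarith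
  · have hj2 : j = n + 1 := by omega
    subst hj2
    rw [if_neg (by omega), if_pos rfl]
    have e1 : n + 1 - 1 = n := by omega
    have e2 : n + 1 - 2 = n - 1 := by omega
    rw [e1, e2, ex_ge g le_rfl, ex_fib g hg (by omega)]
    have e3 : n - 1 + 1 = n := by omega
    rw [e3]
    ring

theorem sum_fib (n : ℕ) : ∑ i : Fin n, ((Nat.fib (i + 1) : ℕ) : ℤ) = (Nat.fib (n + 2) : ℤ) - 1 := by
  induction n with
  | zero => simp
  | succ n ih =>
    rw [Fin.sum_univ_castSucc]
    simp only [Fin.val_castSucc, Fin.val_last]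
    rw [ih]
    have := Nat.fib_add_two (n := n + 1)
    have e4 : n + 1 + 2 = n + 3 := by omega
    have e5 : n + 1 + 1 = n + 2 := by omega
    rw [e4, e5] at this
    rw [e4, this]
    push_cast
    ring

theorem bal (hn : 2 ≤ n) (κ : KK n) : ∑ q, (wt n q : ℤ) * inc (ccf n) κ q = 0 := by
  change tot (fun q => (wt n q : ℤ)) κ = 0
  rcases κ with ⟨⟨j, h⟩ | i, b⟩ | b
  · cases b
    · rw [tot_la0]
      exact chain_fib (zS fun q => (wt n q : ℤ)) (fun i => rfl) hn j h
    · rw [tot_la1]
      have := chain_fib (zP fun q => (wt n q : ℤ)) (fun i => rfl) hn j h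
      have e0 : zE (fun q : QQ n => (wt n q : ℤ)) 0 = 1 := rfl
      have e1 : zE (fun q : QQ n => (wt n q : ℤ)) 1 = Nat.fib (n + 1) := rfl
      have e2 : zE (fun q : QQ n => (wt n q : ℤ)) 2 = Nat.fib n := rfl
      rw [e0, e1, e2]
      linarith
  · cases b
    · rw [tot_mu0]
      exact sub_self _
    · rw [tot_mu1]
      exact sub_self _
  · have e0 : zE (fun q : QQ n => (wt n q : ℤ)) 0 = 1 := rfl
    have e1 : zE (fun q : QQ n => (wt n q : ℤ)) 1 = Nat.fib (n + 1) := rfl
    have e2 : zE (fun q : QQ n => (wt n q : ℤ)) 2 = Nat.fib n := rfl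
    have e3 : ∑ i, zT (fun q : QQ n => (wt n q : ℤ)) i = (Nat.fib (n + 2) : ℤ) - 1 := sum_fib n
    have e4 : (Nat.fib (n + 2) : ℤ) = Nat.fib n + Nat.fib (n + 1) := by
      rw [Nat.fib_add_two]
      push_cast
      ring
    cases b
    · rw [tot_u0, e0, e1, e2, e3, e4]
      ring
    · rw [tot_u1, e0, e1, e2, e3, e4]
      ring

theorem rig (hn : 2 ≤ n) (z : QQ n → ℕ) (hz : ∀ q, z q ≤ wt n q)
    (h : ∀ κ, ∑ q, (z q : ℤ) * inc (ccf n) κ q = 0) : (∀ q, z q = 0) ∨ ∀ q, z q = wt n q := by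
  set Z : QQ n → ℤ := fun q => (z q : ℤ) with hZ
  have H : ∀ κ, tot Z κ = 0 := h
  have hST : ∀ i, zT Z i = zS Z i := fun i => by
    have := H (mu i false)
    rw [tot_mu0] at this
    linarith
  have hPT : ∀ i, zP Z i = zS Z i := fun i => by
    have := H (mu i true)
    rw [tot_mu1] at this
    have := hST i
    linarith
  have hpos : 0 < n := by omega
  set c : ℤ := zS Z ⟨0, hpos⟩ with hc
  have h0 : zE Z 0 = c := by
    have := H (la 0 (by omega) false)
    rw [tot_la0, if_neg (by omega), if_neg (by omega), if_pos rfl, if_neg (by omega),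
      if_neg (by omega), ex_lt _ hpos] at this
    linarith
  have hS : ∀ i, ∀ hi : i < n, zS Z ⟨i, hi⟩ = c * Nat.fib (i + 1) := by
    intro i
    induction i using Nat.strong_induction_on with
    | _ i ih =>
      intro hi
      rcases Nat.eq_zero_or_pos i with rfl | hi0
      · simp [hc]
      have h1 := H (la i (by omega) false)
      rw [tot_la0, if_pos (by omega), if_neg (show ¬ i = 0 by omega), if_neg (show ¬ i = n by omega),
        if_neg (show ¬ i = n + 1 by omega), ex_lt _ hi, ex_lt _ (show i - 1 < n by omega)] at h1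
      rw [ih (i - 1) (by omega) (by omega)] at h1
      rcases eq_or_ne i 1 with rfl | hi1
      · rw [if_neg (by omega)] at h1
        simp at h1 ⊢
        linarith
      · rw [if_pos (by omega), ex_lt _ (show i - 2 < n by omega), ih (i - 2) (by omega) (by omega)] at h1
        have hs := fib_step i (by omega)
        rw [← hs]
        linarith
  have h2 : zE Z 2 = c * Nat.fib n := by
    have h1 := H (la (n + 1) (by omega) false)
    have e1 : n + 1 - 1 = n := by omega
    have e2 : n + 1 - 2 = n - 1 := by omega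
    rw [tot_la0, if_pos (by omega), if_pos (by omega), if_neg (by omega), if_neg (by omega),
      if_pos rfl, e1, e2, ex_ge (zS Z) (le_refl n), ex_ge (zS Z) (show n ≤ n + 1 by omega),
      ex_lt _ (show n - 1 < n by omega), hS (n - 1) (by omega)] at h1
    have e3 : n - 1 + 1 = n := by omega
    rw [e3] at h1
    linarith
  have h1 : zE Z 1 = c * Nat.fib (n + 1) := by
    have h1 := H (la n (by omega) false)
    rw [tot_la0, if_pos (by omega), if_pos (by omega), if_neg (by omega), if_pos rfl,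
      if_neg (by omega), ex_ge _ le_rfl, ex_lt _ (show n - 1 < n by omega),
      ex_lt _ (show n - 2 < n by omega), hS (n - 1) (by omega), hS (n - 2) (by omega)] at h1
    have hs := fib_step n hn
    rw [← hs]
    linarith
  have hall : ∀ q, Z q = c * wt n q := by
    rintro (i | i | i | e)
    · exact hS i i.2
    · exact (hPT i).trans (hS i i.2)
    · exact (hST i).trans (hS i i.2)
    · fin_cases e
      · show zE Z 0 = c * ((1 : ℕ) : ℤ)
        rw [h0]
        simp
      · exact h1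
      · exact h2
  have hc0 : 0 ≤ c := by
    rw [hc]
    exact Int.natCast_nonneg _
  have hc1 : c ≤ 1 := by
    have h3 := hz (Sum.inl ⟨0, hpos⟩)
    have h4 : wt n (Sum.inl ⟨0, hpos⟩) = 1 := rfl
    rw [h4] at h3
    rw [hc]
    show ((z (Sum.inl ⟨0, hpos⟩) : ℕ) : ℤ) ≤ 1
    exact_mod_cast h3
  rcases (by omega : c = 0 ∨ c = 1) with h3 | h3
  · left
    intro q
    have := hall q
    rw [h3, zero_mul] at this
    change ((z q : ℕ) : ℤ) = 0 at this
    exact_mod_cast this
  · right
    intro q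
    have := hall q
    rw [h3, one_mul] at this
    change ((z q : ℕ) : ℤ) = _ at this
    exact_mod_cast this

/-- the sum of the weights -/
theorem sum_wt (n : ℕ) : 2 * ∑ q, wt n q = 8 * Nat.fib (n + 2) - 4 := by
  have h1 : ((∑ q, wt n q : ℕ) : ℤ) = 4 * Nat.fib (n + 2) - 2 := by
    push_cast
    rw [Fintype.sum_sum_type, Fintype.sum_sum_type, Fintype.sum_sum_type, Fin.sum_univ_three]
    have a1 : ∑ i : Fin n, ((wt n (Sum.inl i) : ℕ) : ℤ) = (Nat.fib (n + 2) : ℤ) - 1 := sum_fib n
    have a2 : ∑ i : Fin n, ((wt n (Sum.inr (Sum.inl i)) : ℕ) : ℤ) = (Nat.fib (n + 2) : ℤ) - 1 := sum_fib n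
    have a3 : ∑ i : Fin n, ((wt n (Sum.inr (Sum.inr (Sum.inl i))) : ℕ) : ℤ) =
      (Nat.fib (n + 2) : ℤ) - 1 := sum_fib n
    rw [a1, a2, a3]
    have e4 : (Nat.fib (n + 2) : ℤ) = Nat.fib n + Nat.fib (n + 1) := by
      rw [Nat.fib_add_two]
      push_cast
      ring
    show (Nat.fib (n + 2) : ℤ) - 1 + ((Nat.fib (n + 2) : ℤ) - 1 + ((Nat.fib (n + 2) : ℤ) - 1 +
      (((1 : ℕ) : ℤ) + ((Nat.fib (n + 1) : ℕ) : ℤ) + ((Nat.fib n : ℕ) : ℤ)))) = _
    push_cast
    linarith
  have h2 : 0 < Nat.fib (n + 2) := Nat.fib_pos.2 (by omega)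
  omega

end Pool.Agent.H97.Phy
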