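import Pool.Agent.H81.Phylo.Main

/-!
# MP_ea11fc: systems of squares and indispensable binomials of `I(G, K_{1,3})`

A square `q` consists of four flows `(a q i, b q j, l (cc q i j))`, `i, j` Booleans. If the first and
second labels are generic, the only freedom left in a fibre is one number `z q` for every square, and the
third labels give linear equations for these numbers.
-/

set_option autoImplicit false

open Finset MvPolynomial

namespace Pool.Agent.H97.Phy

open Pool.Agent.H81.Phylo

/-- finitely many values can be avoided -/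
theorem avoid {ι G : Type*} [Fintype ι] [Fintype G] (h : Fintype.card ι < Fintype.card G)
    (v : ι → G) : ∃ g, ∀ i, g ≠ v i := by
  by_contra hc
  push Not at hc
  exact absurd (Fintype.card_le_of_surjective v fun g => (hc g).imp fun _ h => h.symm) (not_le.2 h)

variable {G : Type} [AddCommGroup G]

/-- `degM` of a single flow -/
theorem degM_single (f : Flow G) (k : ℕ) (e : Fin 3) (g : G) [DecidableEq G] :
    degM (Finsupp.single f k) (e, g) = if f.1 e = g then k else 0 := by
  classical
  have h0 : degM (Finsupp.single f k) =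
      k • (∑ e : Fin 3, (Finsupp.single (e, f.1 e) 1 : Fin 3 × G →₀ ℕ)) := by
    unfold degM
    rw [Finsupp.sum_single_index]
    exact zero_smul _ _
  rw [h0, Finsupp.smul_apply, Finsupp.finsetSum_apply]
  have h2 : ∀ i : Fin 3, (Finsupp.single (i, f.1 i) 1 : Fin 3 × G →₀ ℕ) (e, g)
      = if i = e then (if f.1 e = g then 1 else 0) else 0 := by
    intro i
    rw [Finsupp.single_apply]
    by_cases hi : i = e
    · subst hi
      simp
    · rw [if_neg hi, if_neg]
      intro h; exact hi (congrArg Prod.fst h)
  rw [Finset.sum_congr rfl (fun i _ => h2 i), Finset.sum_ite_eq', if_pos (mem_univ e)]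
  split_ifs <;> simp

theorem degM_zero' : degM (0 : Flow G →₀ ℕ) = 0 := by
  unfold degM
  exact Finsupp.sum_zero_index

theorem degM_sum {ι : Type*} (s : Finset ι) (f : ι → Flow G →₀ ℕ) :
    degM (∑ i ∈ s, f i) = ∑ i ∈ s, degM (f i) := by
  classical
  induction s using Finset.induction_on with
  | empty => simp [degM_zero']
  | insert i s hi ih => rw [Finset.sum_insert hi, Finset.sum_insert hi, degM_add, ih]

variable {Q K : Type} [Fintype Q] [DecidableEq K]

/-- net incidence of the third label `κ` and the square `q` -/
def inc (cc : Q → Bool → Bool → K) (κ : K) (q : Q) : ℤ :=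
  (if cc q false false = κ then 1 else 0) + (if cc q true true = κ then 1 else 0) -
    (if cc q false true = κ then 1 else 0) - (if cc q true false = κ then 1 else 0)

omit [Fintype Q] [DecidableEq K] in
/-- a placement of the system in the group -/
structure Place (cc : Q → Bool → Bool → K) (l : K → G) (a b : Q → Bool → G) : Prop where
  inj : Function.Injective l
  sum : ∀ q i j, a q i + b q j + l (cc q i j) = 0
  ane : ∀ q q' i i', a q i = a q' i' → q = q' ∧ i = i'
  bne : ∀ q q' j j', b q j = b q' j' → q = q' ∧ j = j'
  gen : ∀ q q' i j κ, a q i + b q' j + l κ = 0 → q = q'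

variable {cc : Q → Bool → Bool → K} {l : K → G} {a b : Q → Bool → G}

/-- the monomial with the exponents `w` -/
noncomputable def mon (a b : Q → Bool → G) (w : Q → Bool → Bool → ℕ) : Flow G →₀ ℕ :=
  ∑ q, ∑ i, ∑ j, Finsupp.single (fl (a q i) (b q j)) (w q i j)

omit [Fintype Q] [DecidableEq K] in
theorem fl_inj {g h g' h' : G} (e : fl g h = fl g' h') : g = g' ∧ h = h' := by
  have h1 := congrArg (fun f : Flow G => f.1 0) e
  have h2 := congrArg (fun f : Flow G => f.1 1) e
  exact ⟨h1, h2⟩

omit [Fintype Q] [DecidableEq K] in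
theorem Place.F_inj (hp : Place cc l a b) {q q' : Q} {i i' j j' : Bool}
    (h : fl (a q i) (b q j) = fl (a q' i') (b q' j')) : q = q' ∧ i = i' ∧ j = j' := by
  obtain ⟨h1, h2⟩ := fl_inj h
  obtain ⟨h3, h4⟩ := hp.ane _ _ _ _ h1
  exact ⟨h3, h4, (hp.bne _ _ _ _ h2).2⟩

omit [DecidableEq K] in
theorem mon_F [DecidableEq Q] (hp : Place cc l a b) (w : Q → Bool → Bool → ℕ) (q : Q) (i j : Bool) :
    mon a b w (fl (a q i) (b q j)) = w q i j := by
  classical
  unfold mon
  simp only [Finsupp.finsetSum_apply, Finsupp.single_apply]
  rw [Finset.sum_eq_single q, Finset.sum_eq_single i, Finset.sum_eq_single j]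
  · rw [if_pos rfl]
  · intro j' _ hj
    rw [if_neg fun h => hj (hp.F_inj h).2.2]
  · simp
  · intro i' _ hi
    exact Finset.sum_eq_zero fun j' _ => if_neg fun h => hi (hp.F_inj h).2.1
  · simp
  · intro q' _ hq
    exact Finset.sum_eq_zero fun i' _ => Finset.sum_eq_zero fun j' _ =>
      if_neg fun h => hq (hp.F_inj h).1
  · simp

omit [DecidableEq K] in
theorem mon_out (w : Q → Bool → Bool → ℕ) {f : Flow G}
    (hf : ∀ q i j, f ≠ fl (a q i) (b q j)) : mon a b w f = 0 := by
  classical
  unfold mon
  simp only [Finsupp.finsetSum_apply, Finsupp.single_apply]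
  exact Finset.sum_eq_zero fun q _ => Finset.sum_eq_zero fun i _ => Finset.sum_eq_zero fun j _ =>
    if_neg fun h => hf q i j h.symm

omit [DecidableEq K] in
theorem eq_mon [DecidableEq Q] (hp : Place cc l a b) (m : Flow G →₀ ℕ)
    (hm : ∀ f, (∀ q i j, f ≠ fl (a q i) (b q j)) → m f = 0) :
    m = mon a b fun q i j => m (fl (a q i) (b q j)) := by
  classical
  ext f
  by_cases hf : ∀ q i j, f ≠ fl (a q i) (b q j)
  · rw [hm f hf, mon_out _ hf]
  · push Not at hf
    obtain ⟨q, i, j, rfl⟩ := hf
    rw [mon_F hp]

variable [DecidableEq G]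

omit [DecidableEq K] in
theorem deg_zero (w : Q → Bool → Bool → ℕ) (g : G) :
    degM (mon a b w) (0, g) = ∑ q, ∑ i, ∑ j, if a q i = g then w q i j else 0 := by
  unfold mon
  simp only [degM_sum, Finsupp.finsetSum_apply, degM_single]
  rfl

omit [DecidableEq K] in
theorem deg_one (w : Q → Bool → Bool → ℕ) (g : G) :
    degM (mon a b w) (1, g) = ∑ q, ∑ i, ∑ j, if b q j = g then w q i j else 0 := by
  unfold mon
  simp only [degM_sum, Finsupp.finsetSum_apply, degM_single]
  rfl

omit [DecidableEq K] in
theorem deg_two (hp : Place cc l a b) (w : Q → Bool → Bool → ℕ) (g : G) :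
    degM (mon a b w) (2, g) = ∑ q, ∑ i, ∑ j, if l (cc q i j) = g then w q i j else 0 := by
  unfold mon
  simp only [degM_sum, Finsupp.finsetSum_apply, degM_single]
  refine Finset.sum_congr rfl fun q _ => Finset.sum_congr rfl fun i _ => Finset.sum_congr rfl fun j _ => ?_
  have h : (fl (a q i) (b q j)).1 2 = l (cc q i j) := by
    show -a q i - b q j = l (cc q i j)
    have := hp.sum q i j
    rw [← sub_eq_zero]
    have e : -a q i - b q j - l (cc q i j) = -(a q i + b q j + l (cc q i j)) := by abel
    rw [e, this, neg_zero]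
  rw [h]

omit [DecidableEq K] in
theorem row [DecidableEq Q] (hp : Place cc l a b) (w : Q → Bool → Bool → ℕ) (q : Q) (i : Bool) :
    degM (mon a b w) (0, a q i) = w q i false + w q i true := by
  rw [deg_zero, Finset.sum_eq_single q, Finset.sum_eq_single i]
  · simp [add_comm]
  · intro i' _ hi
    exact Finset.sum_eq_zero fun j' _ => if_neg fun h => hi (hp.ane _ _ _ _ h).2
  · simp
  · intro q' _ hq
    exact Finset.sum_eq_zero fun i' _ => Finset.sum_eq_zero fun j' _ =>
      if_neg fun h => hq (hp.ane _ _ _ _ h).1
  · simp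

omit [DecidableEq K] in
theorem col [DecidableEq Q] (hp : Place cc l a b) (w : Q → Bool → Bool → ℕ) (q : Q) (j : Bool) :
    degM (mon a b w) (1, b q j) = w q false j + w q true j := by
  rw [deg_one, Finset.sum_eq_single q]
  · have : ∀ i : Bool, (∑ j', if b q j' = b q j then w q i j' else 0) = w q i j := by
      intro i
      rw [Finset.sum_eq_single j]
      · rw [if_pos rfl]
      · intro j' _ hj
        exact if_neg fun h => hj (hp.bne _ _ _ _ h).2
      · simp
    simp only [this]
    simp [add_comm]
  · intro q' _ hq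
    exact Finset.sum_eq_zero fun i' _ => Finset.sum_eq_zero fun j' _ =>
      if_neg fun h => hq (hp.bne _ _ _ _ h).1
  · simp

/-- the equation of the third label `κ` -/
theorem diag (hp : Place cc l a b) (w : Q → Bool → Bool → ℕ) (κ : K) :
    degM (mon a b w) (2, l κ) = ∑ q, ∑ i, ∑ j, if cc q i j = κ then w q i j else 0 := by
  rw [deg_two hp]
  refine Finset.sum_congr rfl fun q _ => Finset.sum_congr rfl fun i _ => Finset.sum_congr rfl fun j _ => ?_
  by_cases h : cc q i j = κ
  · rw [if_pos h, if_pos (by rw [h])]
  · rw [if_neg h, if_neg fun h' => h (hp.inj h')]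

/-- the exponents of the two monomials and of the candidates -/
def wz (x z : Q → ℕ) (q : Q) (i j : Bool) : ℕ := if i = j then x q - z q else z q

theorem diag_wz (hp : Place cc l a b) {x z : Q → ℕ} (hz : ∀ q, z q ≤ x q) (κ : K) :
    (degM (mon a b (wz x z)) (2, l κ) : ℤ) = (degM (mon a b (wz x fun _ => 0)) (2, l κ) : ℤ) -
      ∑ q, (z q : ℤ) * inc cc κ q := by
  rw [diag hp, diag hp]
  push_cast
  rw [← Finset.sum_sub_distrib]
  refine Finset.sum_congr rfl fun q _ => ?_
  have h1 := hz q
  simp only [Fintype.sum_bool, wz, inc]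
  simp only [if_true, Bool.false_eq_true, if_false, reduceCtorEq, Nat.sub_zero]
  push_cast [Nat.cast_sub h1]
  split_ifs <;> ring

theorem indisp [Fintype G] [DecidableEq Q] (hp : Place cc l a b) (x : Q → ℕ)
    (hbal : ∀ κ, ∑ q, (x q : ℤ) * inc cc κ q = 0)
    (hrig : ∀ z : Q → ℕ, (∀ q, z q ≤ x q) → (∀ κ, ∑ q, (z q : ℤ) * inc cc κ q = 0) →
      (∀ q, z q = 0) ∨ ∀ q, z q = x q)
    (hpos : ∃ q, 0 < x q) {S : Set (MvPolynomial (Flow G) ℂ)} (hS : Ideal.span S = toricIdeal G) :
    ∃ p ∈ S, 2 * ∑ q, x q ≤ p.totalDegree := by
  classical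
  set P := mon a b (wz x fun _ => 0) with hP
  set M := mon a b (wz x x) with hM
  -- the degrees agree on every label when the weights are balanced
  have key : ∀ z : Q → ℕ, (∀ q, z q ≤ x q) → (∀ κ, ∑ q, (z q : ℤ) * inc cc κ q = 0) →
      degM (mon a b (wz x z)) = degM P := by
    intro z hz hbz
    ext ⟨e, g⟩
    fin_cases e
    · show degM (mon a b (wz x z)) (0, g) = degM P (0, g)
      rw [hP, deg_zero, deg_zero]
      refine Finset.sum_congr rfl fun q _ => Finset.sum_congr rfl fun i _ => ?_
      have h1 := hz q
      by_cases h : a q i = g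
      · simp only [h, if_true]
        simp only [Fintype.sum_bool, wz]
        cases i <;> simp <;> omega
      · simp only [h, if_false]
    · show degM (mon a b (wz x z)) (1, g) = degM P (1, g)
      rw [hP, deg_one, deg_one]
      refine Finset.sum_congr rfl fun q _ => ?_
      have h1 := hz q
      rw [Finset.sum_comm]
      conv_rhs => rw [Finset.sum_comm]
      refine Finset.sum_congr rfl fun j _ => ?_
      by_cases h : b q j = g
      · simp only [h, if_true]
        simp only [Fintype.sum_bool, wz]
        cases j <;> simp <;> omega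
      · simp only [h, if_false]
    · show degM (mon a b (wz x z)) (2, g) = degM P (2, g)
      by_cases hg : ∃ κ, l κ = g
      · obtain ⟨κ, rfl⟩ := hg
        have h1 := diag_wz hp hz κ
        rw [hbz κ, sub_zero] at h1
        exact_mod_cast h1
      · push Not at hg
        rw [hP, deg_two hp, deg_two hp]
        refine Finset.sum_congr rfl fun q _ => Finset.sum_congr rfl fun i _ =>
          Finset.sum_congr rfl fun j _ => ?_
        rw [if_neg (hg _), if_neg (hg _)]
  have hdeg : degM P = degM M := (key x (fun q => le_rfl) hbal).symm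
  have hPF : ∀ q i j, P (fl (a q i) (b q j)) = if i = j then x q else 0 := by
    intro q i j
    rw [hP, mon_F hp]
    unfold wz
    simp
  have hMF : ∀ q i j, M (fl (a q i) (b q j)) = if i = j then 0 else x q := by
    intro q i j
    rw [hM, mon_F hp]
    unfold wz
    simp
  have hdisj : ∀ f, P f = 0 ∨ M f = 0 := by
    intro f
    by_cases hf : ∀ q i j, f ≠ fl (a q i) (b q j)
    · exact Or.inl (mon_out _ hf)
    · push Not at hf
      obtain ⟨q, i, j, rfl⟩ := hf
      rw [hPF, hMF]
      split_ifs <;> simp
  have hne : P ≠ M := by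
    obtain ⟨q, hq⟩ := hpos
    intro h
    have h1 := hPF q false false
    have h2 := hMF q false false
    rw [h, h2] at h1
    simp at h1
    omega
  -- the fibre
  have hfib : ∀ m, degM m = degM P → m = P ∨ m = M := by
    intro m hm
    have hsupp : ∀ f, (∀ q i j, f ≠ fl (a q i) (b q j)) → m f = 0 := by
      intro f hf
      by_contra hmf
      have hpos' : 0 < m f := Nat.pos_of_ne_zero hmf
      -- every label of `f` is a label of the system
      have hlab : ∀ e, 0 < degM P (e, f.1 e) := by
        intro e
        rw [← hm]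
        have h1 : m = Finsupp.single f (m f) + (m - Finsupp.single f (m f)) := by
          rw [add_tsub_cancel_of_le]
          exact Finsupp.single_le_iff.2 le_rfl
        rw [h1, degM_add, Finsupp.add_apply, degM_single, if_pos rfl]
        omega
      have h0 := hlab 0
      have h1 := hlab 1
      have h2 := hlab 2
      rw [hP, deg_zero] at h0
      rw [hP, deg_one] at h1
      rw [hP, deg_two hp] at h2
      obtain ⟨q, i, h0⟩ : ∃ q i, a q i = f.1 0 := by
        by_contra hc
        push Not at hc
        have : (∑ q, ∑ i, ∑ j, if a q i = f.1 0 then wz x (fun _ => 0) q i j else 0) = 0 :=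
          Finset.sum_eq_zero fun q _ => Finset.sum_eq_zero fun i _ => Finset.sum_eq_zero fun j _ =>
            if_neg (hc q i)
        omega
      obtain ⟨q', j, h1⟩ : ∃ q' j, b q' j = f.1 1 := by
        by_contra hc
        push Not at hc
        have : (∑ q, ∑ i, ∑ j, if b q j = f.1 1 then wz x (fun _ => 0) q i j else 0) = 0 :=
          Finset.sum_eq_zero fun q _ => Finset.sum_eq_zero fun i _ => Finset.sum_eq_zero fun j _ =>
            if_neg (hc q j)
        omega
      obtain ⟨κ, h2⟩ : ∃ κ, l κ = f.1 2 := by
        by_contra hc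
        push Not at hc
        have : (∑ q, ∑ i, ∑ j, if l (cc q i j) = f.1 2 then wz x (fun _ => 0) q i j else 0) = 0 :=
          Finset.sum_eq_zero fun q _ => Finset.sum_eq_zero fun i _ => Finset.sum_eq_zero fun j _ =>
            if_neg (hc _)
        omega
      have h3 : a q i + b q' j + l κ = 0 := by rw [h0, h1, h2]; exact f.2
      have h4 := hp.gen _ _ _ _ _ h3
      subst h4
      apply hf q i j
      have e : fl (f.1 0) (f.1 1) = f := flEquiv.right_inv f
      rw [h0, h1, e]
    set w : Q → Bool → Bool → ℕ := fun q i j => m (fl (a q i) (b q j)) with hw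
    have hmw : m = mon a b w := eq_mon hp m hsupp
    have hrow : ∀ q i, w q i false + w q i true = x q := by
      intro q i
      have h1 := row hp w q i
      rw [← hmw, hm, hP, row hp] at h1
      rw [← h1]
      unfold wz
      cases i <;> simp
    have hcol : ∀ q j, w q false j + w q true j = x q := by
      intro q j
      have h1 := col hp w q j
      rw [← hmw, hm, hP, col hp] at h1
      rw [← h1]
      unfold wz
      cases j <;> simp
    set z : Q → ℕ := fun q => w q false true with hz
    have hzx : ∀ q, z q ≤ x q := by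
      intro q
      have := hrow q false
      simp only [hz]
      omega
    have hwz : w = wz x z := by
      funext q i j
      have h1 := hrow q false
      have h2 := hrow q true
      have h3 := hcol q false
      have h4 := hcol q true
      unfold wz
      cases i <;> cases j <;> simp [hz] <;> omega
    have hbz : ∀ κ, ∑ q, (z q : ℤ) * inc cc κ q = 0 := by
      intro κ
      have h1 := diag_wz hp hzx κ
      rw [← hwz, ← hmw, hm] at h1
      linarith
    rcases hrig z hzx hbz with h | h
    · left
      rw [hmw, hwz, hP]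
      have : z = fun _ => 0 := funext h
      rw [this]
    · right
      rw [hmw, hwz, hM]
      have : z = x := funext h
      rw [this]
  obtain ⟨p, hpS, hp2⟩ := exists_large_generator hdeg hfib hdisj hne hS
  refine ⟨p, hpS, ?_⟩
  refine le_trans (le_of_eq ?_) hp2
  -- the degree of `P`
  have hsum : ∀ (w : Q → Bool → Bool → ℕ), ((mon a b w).sum fun _ k => k) = ∑ q, ∑ i, ∑ j, w q i j := by
    intro w
    unfold mon
    have h1 : ∀ (ι : Type) (s : Finset ι) (f : ι → Flow G →₀ ℕ),
        ((∑ i ∈ s, f i).sum fun _ k => k) = ∑ i ∈ s, (f i).sum fun _ k => k := by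
      intro ι s f
      induction s using Finset.induction_on with
      | empty => simp
      | insert i s hi ih =>
        rw [Finset.sum_insert hi, Finset.sum_insert hi,
          Finsupp.sum_add_index' (fun _ => rfl) (fun _ _ _ => rfl), ih]
    rw [h1]
    refine Finset.sum_congr rfl fun q _ => ?_
    rw [h1]
    refine Finset.sum_congr rfl fun i _ => ?_
    rw [h1]
    refine Finset.sum_congr rfl fun j _ => ?_
    rw [Finsupp.sum_single_index rfl]
  rw [hP, hsum, Finset.mul_sum]
  refine Finset.sum_congr rfl fun q _ => ?_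
  simp [wz]

end Pool.Agent.H97.Phy
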